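import Mathlib

set_option autoImplicit false

open FirstOrder

namespace Pool.Agent.Results.MP_aec1d5_lc.RigidMagma

/-! ### General definitions, following the problem file -/

/-- An algebraic signature whose function symbols are coded by natural numbers. `arity f = some k`
says that `f` is a function symbol of arity `k`, and `arity f = none` says that `f` is not a
symbol. Since `arity` is computable, the set of symbols is decidable and the arities are
computable. -/
structure Signature where
  /-- the arity function -/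
  arity : ℕ → Option ℕ
  /-- the arity function is computable -/
  computable_arity : Computable arity

/-- The first-order language with the function symbols of `S` and no relation symbols. Its terms,
structures and isomorphisms are Mathlib's. -/
def Signature.lang (S : Signature) : FirstOrder.Language.{0, 0} where
  Functions k := {f : ℕ // S.arity f = some k}
  Relations _ := Empty

/-- The code (Goedel number) of a term, given a coding `v` of its variables:
`code (x_a) = 2 * v a` and
`code (f (t_1, ..., t_k)) = 2 * pair f (code of the list [code t_1, ..., code t_k]) + 1`. -/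
def code {S : Signature} {α : Type} (v : α → ℕ) : S.lang.Term α → ℕ
  | .var a => 2 * v a
  | .func f ts => 2 * Nat.pair f.1 (Encodable.encode (List.ofFn fun i => code v (ts i))) + 1

/-- The absolutely free algebra: terms over the variables `α` with the term-forming operations. -/
instance termStructure (S : Signature) (α : Type) : S.lang.Structure (S.lang.Term α) where
  funMap f ts := FirstOrder.Language.Term.func f ts
  RelMap r _ := nomatch r

/-- The `e`-th c.e. set: the domain of the `e`-th partial recursive function. -/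
def W (e : ℕ) : Set ℕ := {x | ((Denumerable.ofNat Nat.Partrec.Code e).eval x).Dom}

/-- A congruence of an algebra: an equivalence relation compatible with all operations. -/
def IsCongruence (L : FirstOrder.Language.{0, 0}) (A : Type) [L.Structure A] (r : Setoid A) : Prop :=
  ∀ (k : ℕ) (f : L.Functions k) (u v : Fin k → A), (∀ i, r (u i) (v i)) →
    r (FirstOrder.Language.Structure.funMap f u) (FirstOrder.Language.Structure.funMap f v)

/-- A variety: a signature together with a c.e. set of equational laws. A law is a pair of terms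
in the variables `x_0, x_1, x_2, ...`. -/
structure Variety where
  /-- the signature -/
  sig : Signature
  /-- the defining laws -/
  laws : Set (sig.lang.Term ℕ × sig.lang.Term ℕ)
  /-- the set of laws is c.e. -/
  laws_ce : REPred fun c : ℕ => ∃ p ∈ laws, c = Nat.pair (code id p.1) (code id p.2)

/-- The congruence `θ_e` on the term algebra in `n` generators: the least congruence containing
every pair of terms coded in `W_e` and every substitution instance of a law. -/
def Variety.theta (V : Variety) (n e : ℕ) : Setoid (V.sig.lang.Term (Fin n)) :=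
  sInf {r | IsCongruence V.sig.lang (V.sig.lang.Term (Fin n)) r ∧
    (∀ s t : V.sig.lang.Term (Fin n), Nat.pair (code Fin.val s) (code Fin.val t) ∈ W e → r s t) ∧
    (∀ p ∈ V.laws, ∀ σ : ℕ → V.sig.lang.Term (Fin n), r (p.1.subst σ) (p.2.subst σ))}

theorem Variety.theta_isCongruence (V : Variety) (n e : ℕ) :
    IsCongruence V.sig.lang (V.sig.lang.Term (Fin n)) (V.theta n e) := by
  intro k f u v h r hr
  exact hr.1 k f u v fun i => h i r hr

/-- The term algebra is a prestructure for `θ_e`, so the quotient is an algebra. -/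
instance Variety.prestructure (V : Variety) (n e : ℕ) :
    V.sig.lang.Prestructure (V.theta n e) where
  toStructure := termStructure V.sig (Fin n)
  fun_equiv := fun {k} {f} x y h => V.theta_isCongruence n e k f x y h
  rel_equiv := fun {_} {r} => nomatch r

/-- The algebra `T(x_1, ..., x_n) / θ_e` presented by the index `e`. -/
def Variety.Alg (V : Variety) (n e : ℕ) : Type := Quotient (V.theta n e)

/-- The operations of the presented algebra: those of the term algebra, on classes. -/
instance Variety.algStructure (V : Variety) (n e : ℕ) : V.sig.lang.Structure (V.Alg n e) :=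
  inferInstanceAs (V.sig.lang.Structure (Quotient (V.theta n e)))

/-- The ascending chain condition on the congruence lattice of the algebra `A`. -/
def HasACC (L : FirstOrder.Language.{0, 0}) (A : Type) [L.Structure A] : Prop :=
  WellFoundedGT {r : Setoid A // IsCongruence L A r}

/-- The class `V_n` of `n`-generated c.e. algebras of `V` satisfies ACC. -/
def Variety.SatisfiesACC (V : Variety) (n : ℕ) : Prop :=
  ∀ e, HasACC V.sig.lang (V.Alg n e)

/-- The isomorphism relation of the class `V_n`. -/
def Variety.IsoRel (V : Variety) (n : ℕ) : ℕ → ℕ → Prop :=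
  fun e i => Nonempty (V.Alg n e ≃[V.sig.lang] V.Alg n i)

/-- Computable reducibility `E ≤_c F`. -/
def CReducible (E F : ℕ → ℕ → Prop) : Prop :=
  ∃ f : ℕ → ℕ, Computable f ∧ ∀ x y, E x y ↔ F (f x) (f y)

/-- Equality of c.e. sets. -/
def EqCE : ℕ → ℕ → Prop := fun e i => W e = W i

/-- A binary relation on `ℕ` is `Σ⁰₃` if it has the form `∃ a, ∀ b, ∃ c, R (x, y, a, b, c)` with `R`
computable. -/
def IsSigma3 (E : ℕ → ℕ → Prop) : Prop :=
  ∃ R : ℕ × ℕ × ℕ × ℕ × ℕ → Prop, ComputablePred R ∧
    ∀ x y, E x y ↔ ∃ a, ∀ b, ∃ c, R (x, y, a, b, c)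

/-- `E` is `Σ⁰₃`-complete: it is `Σ⁰₃` and every `Σ⁰₃` equivalence relation is `≤_c E`. -/
def IsSigma3Complete (E : ℕ → ℕ → Prop) : Prop :=
  IsSigma3 E ∧ ∀ F : ℕ → ℕ → Prop, Equivalence F → IsSigma3 F → CReducible F E

/-! ### The example: signature, laws, and a concrete model -/

/-- The signature with one constant symbol `0` (coded by `0`) and one binary symbol (coded by `1`,
written as multiplication). -/
def magmaSig : Signature where
  arity f := if f = 0 then some 0 else if f = 1 then some 2 else none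
  computable_arity :=
    (Primrec.ite (Primrec.eq.comp Primrec.id (Primrec.const 0)) (Primrec.const _)
      (Primrec.ite (Primrec.eq.comp Primrec.id (Primrec.const 1)) (Primrec.const _)
        (Primrec.const _))).to_comp

/-- The constant term `0`. -/
def zeroT {α : Type} : magmaSig.lang.Term α :=
  FirstOrder.Language.Term.func (l := 0) ⟨0, rfl⟩ ![]

/-- The product of two terms. -/
def mulT {α : Type} (s t : magmaSig.lang.Term α) : magmaSig.lang.Term α :=
  FirstOrder.Language.Term.func (l := 2) ⟨1, rfl⟩ ![s, t]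

/-- The five laws `(u v)(w z) = 0`, `((u v) w) z = 0`, `z ((u v) w) = 0`, `0 z = 0`, `z 0 = 0`. -/
def magmaLaws : Set (magmaSig.lang.Term ℕ × magmaSig.lang.Term ℕ) :=
  {(mulT (mulT (.var 0) (.var 1)) (mulT (.var 2) (.var 3)), zeroT),
    (mulT (mulT (mulT (.var 0) (.var 1)) (.var 2)) (.var 3), zeroT),
    (mulT (.var 3) (mulT (mulT (.var 0) (.var 1)) (.var 2)), zeroT),
    (mulT zeroT (.var 3), zeroT),
    (mulT (.var 3) zeroT, zeroT)}

theorem primrecPred_of_finite (S : Set ℕ) (h : S.Finite) : PrimrecPred (· ∈ S) := by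
  refine Set.Finite.induction_on (motive := fun S _ => PrimrecPred (· ∈ S)) S h ?_ ?_
  · exact PrimrecPred.of_eq (p := fun _ => (0 : ℕ) = 1)
      (Primrec.eq.comp (Primrec.const 0) (Primrec.const 1)) (fun n => by simp)
  · intro a S _ _ ih
    have h : PrimrecPred fun c : ℕ => c = a := Primrec.eq.comp Primrec.id (Primrec.const a)
    exact (h.or ih).of_eq fun n => by simp

theorem magmaLaws_finite : magmaLaws.Finite := by
  unfold magmaLaws
  exact Set.toFinite _

theorem magmaLaws_ce :
    REPred fun c : ℕ => ∃ p ∈ magmaLaws, c = Nat.pair (code id p.1) (code id p.2) := by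
  have h := primrecPred_of_finite _
    (magmaLaws_finite.image fun p => Nat.pair (code id p.1) (code id p.2))
  refine h.computablePred.to_re.of_eq fun c => ?_
  simp only [Set.mem_image]
  exact ⟨fun ⟨p, hp, h⟩ => ⟨p, hp, h.symm⟩, fun ⟨p, hp, h⟩ => ⟨p, hp, h.symm⟩⟩

/-- The variety of the example: algebras with a constant `0` and a binary operation satisfying the
five laws above. -/
@[reducible] def magmaVariety : Variety where
  sig := magmaSig
  laws := magmaLaws
  laws_ce := magmaLaws_ce

/-! ### Terms of the example -/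

theorem term_ind {α : Type} {motive : magmaSig.lang.Term α → Prop} (hv : ∀ a, motive (.var a))
    (h0 : motive zeroT) (hm : ∀ s t, motive s → motive t → motive (mulT s t)) :
    ∀ t, motive t := by
  intro t
  induction t with
  | var a => exact hv a
  | @func k f ts ih =>
    obtain ⟨f, hf⟩ := f
    have hf' := hf
    simp only [magmaSig] at hf'
    split_ifs at hf' with h1 h2
    · subst h1
      obtain rfl : 0 = k := by simpa using hf'
      have : ts = ![] := Subsingleton.elim _ _
      subst this
      exact h0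
    · subst h2
      obtain rfl : 2 = k := by simpa using hf'
      have : ts = ![ts 0, ts 1] := by
        funext i
        fin_cases i <;> rfl
      rw [this]
      exact hm _ _ (ih 0) (ih 1)

theorem subst_zeroT {α β : Type} (σ : α → magmaSig.lang.Term β) :
    (zeroT : magmaSig.lang.Term α).subst σ = zeroT := by
  unfold zeroT
  simp only [FirstOrder.Language.Term.subst]
  congr 1
  exact Subsingleton.elim _ _

theorem subst_mulT {α β : Type} (σ : α → magmaSig.lang.Term β) (s t : magmaSig.lang.Term α) :
    (mulT s t).subst σ = mulT (s.subst σ) (t.subst σ) := by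
  unfold mulT
  simp only [FirstOrder.Language.Term.subst]
  congr 1
  funext i
  fin_cases i <;> rfl

/-- The multiplication of the concrete model on `ℕ`: here `0` is the zero, `1` is the generator
`x`, `2 i + 2` is `a_i` and `2 i + 3` is `b_i`, where `a_0 = x x`, `a_(i+1) = x a_i` and
`b_i = a_i x`. -/
def mulN (m n : ℕ) : ℕ :=
  if m = 1 then (if n = 1 then 2 else if n % 2 = 0 ∧ n ≠ 0 then n + 2 else 0)
  else if n = 1 ∧ m % 2 = 0 ∧ m ≠ 0 then m + 1 else 0

instance modelN : magmaSig.lang.Structure ℕ where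
  funMap {k} _ u := if h : k = 2 then mulN (u ⟨0, by omega⟩) (u ⟨1, by omega⟩) else 0
  RelMap r _ := nomatch r

theorem realize_zeroT {α : Type} (v : α → ℕ) : (zeroT : magmaSig.lang.Term α).realize v = 0 := rfl

theorem realize_mulT {α : Type} (v : α → ℕ) (s t : magmaSig.lang.Term α) :
    (mulT s t).realize v = mulN (s.realize v) (t.realize v) := rfl

/-- Evaluation of a term in one variable at `x = 1`. -/
def ev (t : magmaSig.lang.Term (Fin 1)) : ℕ := t.realize fun _ => 1

theorem ev_zeroT : ev zeroT = 0 := rfl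

theorem ev_var (i : Fin 1) : ev (.var i) = 1 := rfl

theorem ev_mulT (s t : magmaSig.lang.Term (Fin 1)) : ev (mulT s t) = mulN (ev s) (ev t) := rfl

theorem mulN_ne_one (m n : ℕ) : mulN m n ≠ 1 := by
  unfold mulN
  split_ifs <;> omega

theorem mulN_zero_left (n : ℕ) : mulN 0 n = 0 := by
  unfold mulN
  split_ifs <;> omega

theorem mulN_zero_right (n : ℕ) : mulN n 0 = 0 := by
  simp [mulN]

theorem mulN_mul_mul (a b c d : ℕ) : mulN (mulN a b) (mulN c d) = 0 := by
  have h1 := mulN_ne_one a b
  have h2 := mulN_ne_one c d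
  generalize mulN a b = m at *
  generalize mulN c d = n at *
  unfold mulN
  split_ifs <;> omega

theorem mulN_left_odd (a b c : ℕ) (h : mulN (mulN a b) c ≠ 0) : mulN (mulN a b) c % 2 = 1 := by
  have h1 := mulN_ne_one a b
  generalize mulN a b = m at *
  revert h
  unfold mulN
  split_ifs <;> omega

theorem mulN_of_odd_left (m n : ℕ) (h : m % 2 = 1) (h1 : m ≠ 1) : mulN m n = 0 := by
  unfold mulN
  split_ifs <;> omega

theorem mulN_of_odd_right (m n : ℕ) (h : n % 2 = 1) (h1 : n ≠ 1) : mulN m n = 0 := by
  unfold mulN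
  split_ifs <;> omega

theorem mulN_mul3 (a b c d : ℕ) : mulN (mulN (mulN a b) c) d = 0 := by
  by_cases h : mulN (mulN a b) c = 0
  · rw [h, mulN_zero_left]
  · exact mulN_of_odd_left _ _ (mulN_left_odd a b c h) (mulN_ne_one _ _)

theorem mulN_mul3' (a b c d : ℕ) : mulN d (mulN (mulN a b) c) = 0 := by
  by_cases h : mulN (mulN a b) c = 0
  · rw [h, mulN_zero_right]
  · exact mulN_of_odd_right _ _ (mulN_left_odd a b c h) (mulN_ne_one _ _)

/-- The model satisfies the laws. -/
theorem model_laws {α : Type} (v : α → ℕ) (p : magmaSig.lang.Term ℕ × magmaSig.lang.Term ℕ)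
    (hp : p ∈ magmaLaws) (σ : ℕ → magmaSig.lang.Term α) :
    (p.1.subst σ).realize v = (p.2.subst σ).realize v := by
  simp only [magmaLaws, Set.mem_insert_iff, Set.mem_singleton_iff] at hp
  rcases hp with rfl | rfl | rfl | rfl | rfl <;>
    simp only [subst_mulT, subst_zeroT, realize_mulT, realize_zeroT, mulN_mul_mul, mulN_mul3,
      mulN_mul3', mulN_zero_left, mulN_zero_right]

/-! ### Normal forms -/

/-- `a_0 = x x`, `a_(i+1) = x a_i`. -/
def aT : ℕ → magmaSig.lang.Term (Fin 1)
  | 0 => mulT (.var 0) (.var 0)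
  | i + 1 => mulT (.var 0) (aT i)

/-- The normal form term with value `n`. -/
def nf (n : ℕ) : magmaSig.lang.Term (Fin 1) :=
  if n = 0 then zeroT else if n = 1 then .var 0
  else if n % 2 = 0 then aT ((n - 2) / 2) else mulT (aT ((n - 3) / 2)) (.var 0)

theorem nf_zero : nf 0 = zeroT := rfl

theorem nf_one : nf 1 = .var 0 := rfl

theorem nf_even (i : ℕ) : nf (2 * i + 2) = aT i := by
  unfold nf
  rw [if_neg (by omega), if_neg (by omega), if_pos (by omega)]
  congr 1
  omega

theorem nf_odd (i : ℕ) : nf (2 * i + 3) = mulT (aT i) (.var 0) := by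
  unfold nf
  rw [if_neg (by omega), if_neg (by omega), if_neg (by omega)]
  congr 2
  omega

theorem ev_aT (i : ℕ) : ev (aT i) = 2 * i + 2 := by
  induction i with
  | zero => rfl
  | succ i ih =>
    rw [aT, ev_mulT, ih, ev_var]
    unfold mulN
    rw [if_pos rfl, if_neg (by omega), if_pos (by omega)]
    omega

theorem nat_cases (n : ℕ) : n = 0 ∨ n = 1 ∨ (∃ i, n = 2 * i + 2) ∨ (∃ i, n = 2 * i + 3) := by
  rcases Nat.even_or_odd' n with ⟨k, h | h⟩
  · rcases k with _ | k
    · exact Or.inl (by omega)
    · exact Or.inr (Or.inr (Or.inl ⟨k, by omega⟩))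
  · rcases k with _ | k
    · exact Or.inr (Or.inl (by omega))
    · exact Or.inr (Or.inr (Or.inr ⟨k, by omega⟩))

theorem ev_nf (n : ℕ) : ev (nf n) = n := by
  rcases nat_cases n with rfl | rfl | ⟨i, rfl⟩ | ⟨i, rfl⟩
  · rfl
  · rfl
  · rw [nf_even, ev_aT]
  · rw [nf_odd, ev_mulT, ev_aT, ev_var]
    unfold mulN
    rw [if_neg (by omega), if_pos (by omega)]

theorem aT_eq (i : ℕ) : ∃ s, aT i = mulT (.var 0) s := by
  cases i with
  | zero => exact ⟨_, rfl⟩
  | succ i => exact ⟨_, rfl⟩

/-- A congruence on the term algebra containing all instances of the laws. -/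
def Good (r : Setoid (magmaSig.lang.Term (Fin 1))) : Prop :=
  IsCongruence magmaSig.lang (magmaSig.lang.Term (Fin 1)) r ∧
    ∀ p ∈ magmaLaws, ∀ σ : ℕ → magmaSig.lang.Term (Fin 1), r (p.1.subst σ) (p.2.subst σ)

theorem cong_mulT {α : Type} {r : Setoid (magmaSig.lang.Term α)}
    (hr : IsCongruence magmaSig.lang (magmaSig.lang.Term α) r) {s s' t t' : magmaSig.lang.Term α}
    (h : r s s') (h' : r t t') : r (mulT s t) (mulT s' t') := by
  refine hr 2 ⟨1, rfl⟩ ![s, t] ![s', t'] fun i => ?_
  fin_cases i
  · exact h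
  · exact h'

theorem good_laws {r : Setoid (magmaSig.lang.Term (Fin 1))} (hr : Good r)
    (a b c d : magmaSig.lang.Term (Fin 1)) :
    r (mulT (mulT a b) (mulT c d)) zeroT ∧ r (mulT (mulT (mulT a b) c) d) zeroT ∧
    r (mulT d (mulT (mulT a b) c)) zeroT ∧ r (mulT zeroT d) zeroT ∧ r (mulT d zeroT) zeroT := by
  let σ : ℕ → magmaSig.lang.Term (Fin 1) := fun n =>
    if n = 0 then a else if n = 1 then b else if n = 2 then c else d
  have h1 := hr.2 _ (Or.inl rfl) σ
  have h2 := hr.2 _ (Or.inr (Or.inl rfl)) σ
  have h3 := hr.2 _ (Or.inr (Or.inr (Or.inl rfl))) σ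
  have h4 := hr.2 _ (Or.inr (Or.inr (Or.inr (Or.inl rfl)))) σ
  have h5 := hr.2 _ (Or.inr (Or.inr (Or.inr (Or.inr rfl)))) σ
  simp only [subst_mulT, subst_zeroT] at h1 h2 h3 h4 h5
  exact ⟨h1, h2, h3, h4, h5⟩

theorem nf_mul {r : Setoid (magmaSig.lang.Term (Fin 1))} (hr : Good r) (m n : ℕ) :
    r (mulT (nf m) (nf n)) (nf (mulN m n)) := by
  rcases nat_cases m with rfl | rfl | ⟨i, rfl⟩ | ⟨i, rfl⟩
  · rw [mulN_zero_left]
    exact (good_laws hr zeroT zeroT zeroT (nf n)).2.2.2.1
  · rcases nat_cases n with rfl | rfl | ⟨j, rfl⟩ | ⟨j, rfl⟩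
    · rw [mulN_zero_right]
      exact (good_laws hr zeroT zeroT zeroT (nf 1)).2.2.2.2
    · exact r.refl' _
    · have : mulN 1 (2 * j + 2) = 2 * (j + 1) + 2 := by
        unfold mulN
        rw [if_pos rfl, if_neg (by omega), if_pos (by omega)]
        omega
      rw [this, nf_even, nf_even, nf_one]
      exact r.refl' _
    · rw [mulN_of_odd_right _ _ (by omega) (by omega), nf_odd, nf_zero]
      obtain ⟨s, hs⟩ := aT_eq j
      rw [hs]
      exact (good_laws hr _ _ _ _).2.2.1
  · rcases nat_cases n with rfl | rfl | ⟨j, rfl⟩ | ⟨j, rfl⟩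
    · rw [mulN_zero_right]
      exact (good_laws hr zeroT zeroT zeroT _).2.2.2.2
    · have : mulN (2 * i + 2) 1 = 2 * i + 3 := by
        unfold mulN
        rw [if_neg (by omega), if_pos (by omega)]
      rw [this, nf_even, nf_odd, nf_one]
    · have : mulN (2 * i + 2) (2 * j + 2) = 0 := by
        unfold mulN
        rw [if_neg (by omega), if_neg (by omega)]
      rw [this, nf_even, nf_even, nf_zero]
      obtain ⟨s, hs⟩ := aT_eq i
      obtain ⟨t, ht⟩ := aT_eq j
      rw [hs, ht]
      exact (good_laws hr _ _ _ _).1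
    · rw [mulN_of_odd_right _ _ (by omega) (by omega), nf_odd, nf_even, nf_zero]
      obtain ⟨s, hs⟩ := aT_eq i
      rw [hs]
      exact (good_laws hr _ _ _ _).1
  · rw [mulN_of_odd_left _ _ (by omega) (by omega), nf_odd, nf_zero]
    obtain ⟨s, hs⟩ := aT_eq i
    rw [hs]
    exact (good_laws hr _ _ _ _).2.1

theorem good_nf {r : Setoid (magmaSig.lang.Term (Fin 1))} (hr : Good r) :
    ∀ s, r s (nf (ev s)) := by
  apply term_ind
  · intro i
    rw [ev_var, nf_one, Subsingleton.elim i 0]
  · exact r.refl' _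
  · intro s t hs ht
    rw [ev_mulT]
    exact r.trans' (cong_mulT hr.1 hs ht) (nf_mul hr _ _)

/-! ### The congruence `θ_e` in terms of the model -/

/-- The congruence on the model generated by the pairs in `W_e`. -/
inductive Cl (e : ℕ) : ℕ → ℕ → Prop
  | base (s t : magmaSig.lang.Term (Fin 1))
      (h : Nat.pair (code Fin.val s) (code Fin.val t) ∈ W e) : Cl e (ev s) (ev t)
  | refl (m : ℕ) : Cl e m m
  | symm {m n : ℕ} (h : Cl e m n) : Cl e n m
  | trans {m n k : ℕ} (h : Cl e m n) (h' : Cl e n k) : Cl e m k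
  | mul {m n m' n' : ℕ} (h : Cl e m m') (h' : Cl e n n') : Cl e (mulN m n) (mulN m' n')

theorem theta_iff (e : ℕ) (s t : magmaSig.lang.Term (Fin 1)) :
    magmaVariety.theta 1 e s t ↔ Cl e (ev s) (ev t) := by
  constructor
  · intro h
    let r : Setoid (magmaSig.lang.Term (Fin 1)) :=
      ⟨fun s t => Cl e (ev s) (ev t), fun _ => Cl.refl _, fun h => Cl.symm h,
        fun h h' => Cl.trans h h'⟩
    refine h r ⟨?_, fun s t h => Cl.base s t h, fun p hp σ => ?_⟩
    · intro k f u v h
      change Cl e _ _
      change ∀ i, Cl e (ev (u i)) (ev (v i)) at h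
      by_cases hk : k = 2
      · have e1 : ∀ w : Fin k → magmaSig.lang.Term (Fin 1),
            ev (FirstOrder.Language.Structure.funMap f w) =
              mulN (ev (w ⟨0, by omega⟩)) (ev (w ⟨1, by omega⟩)) := by
          intro w
          subst hk
          rfl
        rw [e1, e1]
        exact Cl.mul (h _) (h _)
      · have e1 : ∀ w : Fin k → magmaSig.lang.Term (Fin 1),
            ev (FirstOrder.Language.Structure.funMap f w) = 0 := by
          intro w
          exact dif_neg hk
        rw [e1, e1]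
        exact Cl.refl _
    · change Cl e _ _
      have := model_laws (fun _ => 1) p hp σ
      unfold ev
      rw [this]
      exact Cl.refl _
  · intro h r hr
    have hg : Good r := ⟨hr.1, hr.2.2⟩
    have key : ∀ m n, Cl e m n → r (nf m) (nf n) := by
      intro m n h
      induction h with
      | base s t h =>
        exact r.trans' (r.symm' (good_nf hg s)) (r.trans' (hr.2.1 s t h) (good_nf hg t))
      | refl m => exact r.refl' _
      | symm _ ih => exact r.symm' ih
      | trans _ _ ih1 ih2 => exact r.trans' ih1 ih2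
      | mul _ _ ih1 ih2 =>
        exact r.trans' (r.symm' (nf_mul hg _ _)) (r.trans' (cong_mulT hg.1 ih1 ih2) (nf_mul hg _ _))
    exact r.trans' (good_nf hg s) (r.trans' (key _ _ h) (r.symm' (good_nf hg t)))

/-- If the generator is identified with anything else, the algebra is trivial. -/
theorem collapse {e n : ℕ} (hn : n ≠ 1) (h : Cl e 1 n) (m : ℕ) : Cl e m 0 := by
  have h2 : Cl e 2 0 := by
    have h3 := Cl.mul h h
    have h4 : mulN n n = 0 := by
      unfold mulN
      rw [if_neg hn, if_neg (by omega)]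
    rw [h4] at h3
    exact h3
  have ha : ∀ i, Cl e (2 * i + 2) 0 := by
    intro i
    induction i with
    | zero => exact h2
    | succ i ih =>
      have h3 := Cl.mul (Cl.refl 1) ih
      have h4 : mulN 1 (2 * i + 2) = 2 * (i + 1) + 2 := by
        unfold mulN
        rw [if_pos rfl, if_neg (by omega), if_pos (by omega)]
        omega
      rw [h4, mulN_zero_right] at h3
      exact h3
  have hb : ∀ i, Cl e (2 * i + 3) 0 := by
    intro i
    have h3 := Cl.mul (ha i) (Cl.refl 1)
    have h4 : mulN (2 * i + 2) 1 = 2 * i + 3 := by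
      unfold mulN
      rw [if_neg (by omega), if_pos (by omega)]
    rw [h4, mulN_zero_left] at h3
    exact h3
  have h0 : ∀ k, k ≠ 1 → Cl e k 0 := by
    intro k hk
    rcases nat_cases k with rfl | rfl | ⟨i, rfl⟩ | ⟨i, rfl⟩
    · exact Cl.refl _
    · exact absurd rfl hk
    · exact ha i
    · exact hb i
  by_cases hm : m = 1
  · subst hm
    exact Cl.trans h (h0 n hn)
  · exact h0 m hm

/-! ### Rigidity: isomorphism is equality of the congruences -/

instance magmaPre (n e : ℕ) : magmaSig.lang.Prestructure (magmaVariety.theta n e) :=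
  Variety.prestructure magmaVariety n e

instance magmaAlg (n e : ℕ) : magmaSig.lang.Structure (magmaVariety.Alg n e) :=
  Variety.algStructure magmaVariety n e

/-- The class of a term in the algebra presented by `e`. -/
def cls (e : ℕ) (t : magmaSig.lang.Term (Fin 1)) : magmaVariety.Alg 1 e :=
  Quotient.mk (magmaVariety.theta 1 e) t

theorem cls_eq_iff (e : ℕ) (s t : magmaSig.lang.Term (Fin 1)) :
    cls e s = cls e t ↔ Cl e (ev s) (ev t) := by
  rw [← theta_iff]
  exact Quotient.eq

theorem cls_surjective (e : ℕ) : Function.Surjective (cls e) := Quotient.mk_surjective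

theorem funMap_cls (e : ℕ) {k : ℕ} (f : magmaSig.lang.Functions k)
    (u : Fin k → magmaSig.lang.Term (Fin 1)) :
    FirstOrder.Language.Structure.funMap f (fun i => cls e (u i)) =
      cls e (FirstOrder.Language.Structure.funMap f u) :=
  FirstOrder.Language.funMap_quotient_mk' (magmaVariety.theta 1 e) f u

theorem realize_cls (e : ℕ) (t : magmaSig.lang.Term (Fin 1))
    (y : magmaSig.lang.Term (Fin 1)) :
    t.realize (fun _ => cls e y) = cls e (t.subst fun _ => y) := by
  induction t with
  | var a => rfl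
  | func f ts ih =>
    simp only [FirstOrder.Language.Term.realize, ih]
    exact funMap_cls e f _

theorem subst_var_self (t : magmaSig.lang.Term (Fin 1)) :
    (t.subst fun _ => FirstOrder.Language.Term.var 0) = t := by
  induction t with
  | var a => rw [Subsingleton.elim a 0]; rfl
  | func f ts ih =>
    simp only [FirstOrder.Language.Term.subst, ih]

theorem theta_eq_of_iso (e i : ℕ) (φ : magmaVariety.Alg 1 e ≃[magmaSig.lang] magmaVariety.Alg 1 i) :
    magmaVariety.theta 1 e = magmaVariety.theta 1 i := by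
  obtain ⟨y, hy⟩ := cls_surjective i (φ (cls e (.var 0)))
  have h1 : ∀ t, φ (cls e t) = cls i (t.subst fun _ => y) := by
    intro t
    rw [← realize_cls, hy]
    have h2 : cls e t = t.realize (fun _ => cls e (.var 0)) := by
      rw [realize_cls, subst_var_self]
    rw [h2]
    exact (FirstOrder.Language.HomClass.realize_term φ).symm
  have h3 : ∀ s t, Cl e (ev s) (ev t) ↔
      Cl i (ev (s.subst fun _ => y)) (ev (t.subst fun _ => y)) := by
    intro s t
    rw [← cls_eq_iff, ← cls_eq_iff, ← h1, ← h1]
    exact φ.injective.eq_iff.symm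
  have h4 : ∀ t : magmaSig.lang.Term (Fin 1), ev (t.subst fun _ => y) = t.realize fun _ => ev y := by
    intro t
    exact FirstOrder.Language.Term.realize_subst
  have h5 : ∀ s t, magmaVariety.theta 1 e s t ↔ magmaVariety.theta 1 i s t := by
    by_cases hy1 : ev y = 1
    · intro s t
      rw [theta_iff, theta_iff, h3, h4, h4, hy1]
      rfl
    · have h6 : ∀ t : magmaSig.lang.Term (Fin 1), (t.realize fun _ => ev y) ≠ 1 := by
        apply term_ind
        · intro _
          exact hy1
        · rw [realize_zeroT]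
          omega
        · intro s t _ _
          rw [realize_mulT]
          exact mulN_ne_one _ _
      obtain ⟨a, ha⟩ := φ.surjective (cls i (.var 0))
      obtain ⟨s, rfl⟩ := cls_surjective e a
      rw [h1, cls_eq_iff, h4] at ha
      have h7 : ∀ m n, Cl i m n := fun m n =>
        Cl.trans (collapse (h6 s) (Cl.symm ha) m) (Cl.symm (collapse (h6 s) (Cl.symm ha) n))
      intro s t
      rw [theta_iff, theta_iff, h3]
      exact ⟨fun _ => h7 _ _, fun _ => h7 _ _⟩
  exact Setoid.ext h5

theorem iso_of_theta_eq (e i : ℕ) (h : magmaVariety.theta 1 e = magmaVariety.theta 1 i) :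
    Nonempty (magmaVariety.Alg 1 e ≃[magmaSig.lang] magmaVariety.Alg 1 i) := by
  have h1 : ∀ s t, magmaVariety.theta 1 e s t ↔ magmaVariety.theta 1 i s t := by
    intro s t
    rw [h]
  let E : magmaVariety.Alg 1 e ≃ magmaVariety.Alg 1 i :=
    { toFun := Quotient.map' (s₁ := magmaVariety.theta 1 e) (s₂ := magmaVariety.theta 1 i) id
        fun s t hst => (h1 s t).1 hst
      invFun := Quotient.map' (s₁ := magmaVariety.theta 1 i) (s₂ := magmaVariety.theta 1 e) id
        fun s t hst => (h1 s t).2 hst
      left_inv := fun a => Quotient.inductionOn a fun s => rfl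
      right_inv := fun a => Quotient.inductionOn a fun s => rfl }
  refine ⟨⟨E, ?_, fun {n} r => nomatch r⟩⟩
  intro k f x
  obtain ⟨u, hu⟩ : ∃ u : Fin k → magmaSig.lang.Term (Fin 1), x = fun j => cls e (u j) :=
    ⟨fun j => (cls_surjective e (x j)).choose, funext fun j => (cls_surjective e (x j)).choose_spec.symm⟩
  subst hu
  rw [funMap_cls]
  have h2 : ∀ t, E (cls e t) = cls i t := fun t => rfl
  have h3 : (E.toFun ∘ fun j => cls e (u j)) = fun j => cls i (u j) := rfl
  rw [h3, funMap_cls]
  rfl

theorem isoRel_iff (e i : ℕ) :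
    magmaVariety.IsoRel 1 e i ↔ magmaVariety.theta 1 e = magmaVariety.theta 1 i :=
  ⟨fun ⟨φ⟩ => theta_eq_of_iso e i φ, fun h => iso_of_theta_eq e i h⟩

/-! ### ACC fails -/

theorem exists_W_empty : ∃ e, W e = ∅ := by
  obtain ⟨c, hc⟩ := Nat.Partrec.Code.exists_code.1 Nat.Partrec.none
  refine ⟨Encodable.encode c, ?_⟩
  ext x
  simp [W, hc]

theorem Cl_of_empty {e : ℕ} (he : W e = ∅) {m n : ℕ} (h : Cl e m n) : m = n := by
  induction h with
  | base s t h => rw [he] at h; exact absurd h (Set.notMem_empty _)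
  | refl m => rfl
  | symm _ ih => exact ih.symm
  | trans _ _ ih1 ih2 => exact ih1.trans ih2
  | mul _ _ ih1 ih2 => rw [ih1, ih2]

/-- The value of an element of the free algebra. -/
def evQ {e : ℕ} (he : W e = ∅) : magmaVariety.Alg 1 e → ℕ :=
  Quotient.lift ev fun s t h => Cl_of_empty he ((theta_iff e s t).1 h)

theorem evQ_cls {e : ℕ} (he : W e = ∅) (t : magmaSig.lang.Term (Fin 1)) :
    evQ he (cls e t) = ev t := rfl

/-- The set `{0, b_0, ..., b_(k-1)}`. -/
def Z (k : ℕ) : Set ℕ := {m | m = 0 ∨ ∃ i < k, m = 2 * i + 3}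

theorem mulN_Z_left {k m n : ℕ} (h : m ∈ Z k) : mulN m n = 0 := by
  rcases h with rfl | ⟨i, _, rfl⟩
  · exact mulN_zero_left _
  · exact mulN_of_odd_left _ _ (by omega) (by omega)

theorem mulN_Z_right {k m n : ℕ} (h : n ∈ Z k) : mulN m n = 0 := by
  rcases h with rfl | ⟨i, _, rfl⟩
  · exact mulN_zero_right _
  · exact mulN_of_odd_right _ _ (by omega) (by omega)

/-- The relation on the model that identifies the elements of `Z k`. -/
def ZRel (k m n : ℕ) : Prop := m = n ∨ (m ∈ Z k ∧ n ∈ Z k)

theorem ZRel_mul {k m m' n n' : ℕ} (h : ZRel k m m') (h' : ZRel k n n') :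
    ZRel k (mulN m n) (mulN m' n') := by
  rcases h with rfl | ⟨h1, h2⟩
  · rcases h' with rfl | ⟨h3, h4⟩
    · exact Or.inl rfl
    · left
      rw [mulN_Z_right h3, mulN_Z_right h4]
  · left
    rw [mulN_Z_left h1, mulN_Z_left h2]

/-- The congruence of the free algebra that identifies `0, b_0, ..., b_(k-1)`. -/
def congZ {e : ℕ} (he : W e = ∅) (k : ℕ) : Setoid (magmaVariety.Alg 1 e) where
  r a b := ZRel k (evQ he a) (evQ he b)
  iseqv :=
    { refl := fun _ => Or.inl rfl
      symm := fun h => h.elim (fun h => Or.inl h.symm) fun h => Or.inr ⟨h.2, h.1⟩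
      trans := by
        rintro a b c (h | ⟨h1, h2⟩) (h' | ⟨h3, h4⟩)
        · exact Or.inl (h.trans h')
        · exact Or.inr ⟨h ▸ h3, h4⟩
        · exact Or.inr ⟨h1, h' ▸ h2⟩
        · exact Or.inr ⟨h1, h4⟩ }

theorem congZ_isCongruence {e : ℕ} (he : W e = ∅) (k : ℕ) :
    IsCongruence magmaSig.lang (magmaVariety.Alg 1 e) (congZ he k) := by
  intro j f u v h
  obtain ⟨u, rfl⟩ : ∃ u' : Fin j → magmaSig.lang.Term (Fin 1), u = fun j => cls e (u' j) :=
    ⟨fun j => (cls_surjective e (u j)).choose, funext fun j => (cls_surjective e (u j)).choose_spec.symm⟩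
  obtain ⟨v, rfl⟩ : ∃ v' : Fin j → magmaSig.lang.Term (Fin 1), v = fun j => cls e (v' j) :=
    ⟨fun j => (cls_surjective e (v j)).choose, funext fun j => (cls_surjective e (v j)).choose_spec.symm⟩
  have h1 : ∀ i, ZRel k (ev (u i)) (ev (v i)) := h
  change ZRel k (evQ he _) (evQ he _)
  rw [funMap_cls, funMap_cls, evQ_cls, evQ_cls]
  by_cases hk : j = 2
  · subst hk
    exact ZRel_mul (h1 0) (h1 1)
  · left
    have e1 : ∀ w : Fin j → magmaSig.lang.Term (Fin 1),
        ev (FirstOrder.Language.Structure.funMap f w) = 0 := by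
      intro w
      exact dif_neg hk
    rw [e1, e1]

theorem not_acc : ¬ magmaVariety.SatisfiesACC 1 := by
  intro h
  obtain ⟨e, he⟩ := exists_W_empty
  have h1 := h e
  unfold HasACC at h1
  have hmono : Monotone fun k : ℕ => (⟨congZ he k, congZ_isCongruence he k⟩ :
      {r : Setoid (magmaVariety.Alg 1 e) //
        IsCongruence magmaSig.lang (magmaVariety.Alg 1 e) r}) := by
    intro k l hkl
    have hZ : Z k ⊆ Z l := by
      rintro m (rfl | ⟨i, hi, rfl⟩)
      · exact Or.inl rfl
      · exact Or.inr ⟨i, lt_of_lt_of_le hi hkl, rfl⟩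
    change congZ he k ≤ congZ he l
    intro a b hab
    rcases hab with hab | ⟨h1, h2⟩
    · exact Or.inl hab
    · exact Or.inr ⟨hZ h1, hZ h2⟩
  obtain ⟨n, hn⟩ := wellFoundedGT_iff_monotone_chain_condition.1 h1 ⟨_, hmono⟩
  have h2 := congrArg Subtype.val (hn (n + 1) (Nat.le_succ n))
  change congZ he n = congZ he (n + 1) at h2
  have h3 : congZ he (n + 1) (cls e (nf (2 * n + 3))) (cls e (nf 0)) := by
    change ZRel _ (evQ he _) (evQ he _)
    rw [evQ_cls, evQ_cls, ev_nf, ev_nf]
    exact Or.inr ⟨Or.inr ⟨n, Nat.lt_succ_self n, rfl⟩, Or.inl rfl⟩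
  rw [← h2] at h3
  change ZRel _ (evQ he _) (evQ he _) at h3
  rw [evQ_cls, evQ_cls, ev_nf, ev_nf] at h3
  rcases h3 with h3 | ⟨h3 | ⟨i, hi, h3⟩, _⟩ <;> omega


/-! ### Computability -/

open Nat.Partrec (Code)

theorem rePred_exists {α : Type} [Primcodable α] {p : α → ℕ → Prop}
    (hp : ComputablePred fun x : α × ℕ => p x.1 x.2) : REPred fun a => ∃ n, p a n := by
  classical
  have h : Partrec fun a => Nat.rfind fun n => Part.some (decide (p a n)) :=
    Partrec.rfind hp.decide.partrec
  refine h.dom_re.of_eq fun a => (Nat.rfind_dom (p := fun n => Part.some (decide (p a n)))).trans ?_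
  constructor
  · rintro ⟨n, hn, _⟩
    exact ⟨n, by simpa using hn⟩
  · rintro ⟨n, hn⟩
    exact ⟨n, by simpa using hn, fun _ => trivial⟩

/-- `x` is enumerated in `W_e` within `s` steps. -/
def Wb (e s x : ℕ) : Bool := (Code.evaln s (Denumerable.ofNat Code e) x).isSome

theorem mem_W_iff (e x : ℕ) : x ∈ W e ↔ ∃ s, Wb e s x = true := by
  unfold W Wb
  simp only [Set.mem_ofPred_eq, Part.dom_iff_mem, Option.isSome_iff_exists]
  constructor
  · rintro ⟨y, hy⟩
    obtain ⟨k, hk⟩ := Code.evaln_complete.1 hy
    exact ⟨k, y, hk⟩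
  · rintro ⟨k, y, hk⟩
    exact ⟨y, Code.evaln_sound hk⟩

theorem Wb_mono {e s t x : ℕ} (hst : s ≤ t) (h : Wb e s x = true) : Wb e t x = true := by
  unfold Wb at *
  rw [Option.isSome_iff_exists] at *
  obtain ⟨y, hy⟩ := h
  exact ⟨y, Code.evaln_mono hst hy⟩

theorem primrec_Wb : Primrec fun p : ℕ × ℕ × ℕ => Wb p.1 p.2.1 p.2.2 := by
  unfold Wb
  exact Primrec.option_isSome.comp (Code.primrec_evaln.comp
    (((Primrec.fst.comp Primrec.snd).pair ((Primrec.ofNat Code).comp Primrec.fst)).pair
      (Primrec.snd.comp Primrec.snd)))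

/-- Every c.e. set occurs as some `W e`. -/
theorem exists_index {P : ℕ → Prop} (hP : REPred P) : ∃ e, W e = {x | P x} := by
  have h1 : Partrec fun a => (Part.assert (P a) fun _ => Part.some ()).map fun _ => (0 : ℕ) :=
    Partrec.map hP (Computable.const 0).to₂
  obtain ⟨c, hc⟩ := Code.exists_code.1 (Partrec.nat_iff.1 h1)
  refine ⟨Encodable.encode c, ?_⟩
  ext x
  unfold W
  simp only [Denumerable.ofNat_encode, hc, Set.mem_ofPred_eq]
  constructor
  · intro h
    exact h.1
  · intro h
    exact ⟨h, trivial⟩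

/-- Uniform version, by the s-m-n theorem. -/
theorem exists_index_uniform {P : ℕ → ℕ → Prop} (hP : REPred fun x : ℕ × ℕ => P x.1 x.2) :
    ∃ f : ℕ → ℕ, Computable f ∧ ∀ e, W (f e) = {x | P e x} := by
  have h1 : REPred fun x : ℕ => P x.unpair.1 x.unpair.2 := by
    have h2 : Partrec fun x : ℕ => (fun y : ℕ × ℕ => Part.assert (P y.1 y.2) fun _ => Part.some ())
        (x.unpair) := Partrec.comp hP Computable.unpair
    exact h2
  obtain ⟨c, hc⟩ := exists_index h1
  refine ⟨fun e => Encodable.encode (Code.curry (Denumerable.ofNat Code c) e), ?_, ?_⟩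
  · exact Computable.encode.comp
      (Code.primrec₂_curry.comp (Primrec.const _) Primrec.id).to_comp
  · intro e
    ext x
    have h2 : Nat.pair e x ∈ W c ↔ P e x := by
      rw [hc]
      simp
    rw [Set.mem_ofPred_eq, ← h2]
    unfold W
    simp [Code.eval_curry]


theorem primrec_mulN : Primrec₂ mulN := by
  unfold mulN
  have hm : Primrec fun p : ℕ × ℕ => p.1 := Primrec.fst
  have hn : Primrec fun p : ℕ × ℕ => p.2 := Primrec.snd
  have c : ∀ k : ℕ, Primrec fun _ : ℕ × ℕ => k := fun k => Primrec.const k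
  have heq : ∀ {f g : ℕ × ℕ → ℕ}, Primrec f → Primrec g → PrimrecPred fun p => f p = g p :=
    fun hf hg => Primrec.eq.comp hf hg
  exact Primrec.ite (heq hm (c 1))
    (Primrec.ite (heq hn (c 1)) (c 2)
      (Primrec.ite ((heq (Primrec.nat_mod.comp hn (c 2)) (c 0)).and (heq hn (c 0)).not)
        (Primrec.nat_add.comp hn (c 2)) (c 0)))
    (Primrec.ite ((heq hn (c 1)).and
      ((heq (Primrec.nat_mod.comp hm (c 2)) (c 0)).and (heq hm (c 0)).not))
      (Primrec.nat_add.comp hm (c 1)) (c 0))

/-- Value of the term with code `c`, if `c` is the code of a term. The list coding used is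
`encode [] = 0` and `encode (a :: l) = pair a (encode l) + 1`. -/
def evc (c : ℕ) : Option ℕ :=
  if c % 2 = 0 then (if c = 0 then some 1 else none)
  else if (c / 2).unpair.1 = 0 then (if (c / 2).unpair.2 = 0 then some 0 else none)
  else if (c / 2).unpair.1 = 1 ∧ (c / 2).unpair.2 ≠ 0 ∧
      ((c / 2).unpair.2 - 1).unpair.2 ≠ 0 ∧
      (((c / 2).unpair.2 - 1).unpair.2 - 1).unpair.2 = 0 then
    (if h1 : ((c / 2).unpair.2 - 1).unpair.1 < c then evc ((c / 2).unpair.2 - 1).unpair.1
      else none).bind fun m =>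
    (if h2 : (((c / 2).unpair.2 - 1).unpair.2 - 1).unpair.1 < c then
      evc (((c / 2).unpair.2 - 1).unpair.2 - 1).unpair.1 else none).map fun n => mulN m n
  else none
termination_by c

/-- The step function for the course-of-values recursion. -/
def evcStep (L : List (Option ℕ)) : Option (Option ℕ) :=
  some (
  if L.length % 2 = 0 then (if L.length = 0 then some 1 else none)
  else if (L.length / 2).unpair.1 = 0 then (if (L.length / 2).unpair.2 = 0 then some 0 else none)
  else if (L.length / 2).unpair.1 = 1 ∧ (L.length / 2).unpair.2 ≠ 0 ∧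
      ((L.length / 2).unpair.2 - 1).unpair.2 ≠ 0 ∧
      (((L.length / 2).unpair.2 - 1).unpair.2 - 1).unpair.2 = 0 then
    (L.getD ((L.length / 2).unpair.2 - 1).unpair.1 none).bind fun m =>
    (L.getD (((L.length / 2).unpair.2 - 1).unpair.2 - 1).unpair.1 none).map fun n => mulN m n
  else none)

theorem primrec_evcStep : Primrec evcStep := by
  unfold evcStep
  refine Primrec.option_some.comp ?_
  have hl : Primrec fun L : List (Option ℕ) => L.length := Primrec.list_length
  have c : ∀ k : ℕ, Primrec fun _ : List (Option ℕ) => k := fun k => Primrec.const k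
  have heq : ∀ {f g : List (Option ℕ) → ℕ}, Primrec f → Primrec g →
      PrimrecPred fun p => f p = g p := fun hf hg => Primrec.eq.comp hf hg
  have h2 : Primrec fun L : List (Option ℕ) => L.length / 2 := Primrec.nat_div.comp hl (c 2)
  have hu : ∀ {f : List (Option ℕ) → ℕ}, Primrec f → Primrec fun L => (f L).unpair.1 :=
    fun hf => Primrec.fst.comp (Primrec.unpair.comp hf)
  have hv : ∀ {f : List (Option ℕ) → ℕ}, Primrec f → Primrec fun L => (f L).unpair.2 :=
    fun hf => Primrec.snd.comp (Primrec.unpair.comp hf)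
  have hp : ∀ {f : List (Option ℕ) → ℕ}, Primrec f → Primrec fun L => f L - 1 :=
    fun hf => Primrec.nat_sub.comp hf (c 1)
  refine Primrec.ite (heq (Primrec.nat_mod.comp hl (c 2)) (c 0))
    (Primrec.ite (heq hl (c 0)) (Primrec.const _) (Primrec.const _)) ?_
  refine Primrec.ite (heq (hu h2) (c 0))
    (Primrec.ite (heq (hv h2) (c 0)) (Primrec.const _) (Primrec.const _)) ?_
  refine Primrec.ite ((heq (hu h2) (c 1)).and ((heq (hv h2) (c 0)).not.and
    ((heq (hv (hp (hv h2))) (c 0)).not.and (heq (hv (hp (hv (hp (hv h2))))) (c 0))))) ?_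
    (Primrec.const _)
  have hg : ∀ {f : List (Option ℕ) → ℕ}, Primrec f →
      Primrec fun L : List (Option ℕ) => L.getD (f L) none :=
    fun hf => (Primrec.list_getD none).comp Primrec.id hf
  refine Primrec.option_bind (hg (hu (hp (hv h2)))) ?_
  refine Primrec.option_map ((hg (hu (hp (hv (hp (hv h2)))))).comp Primrec.fst) ?_
  exact primrec_mulN.comp (Primrec.snd.comp Primrec.fst) Primrec.snd

theorem getD_map_range (c i : ℕ) :
    ((List.range c).map evc).getD i none = if i < c then evc i else none := by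
  by_cases h : i < c
  · rw [if_pos h]
    simp [List.getD, h]
  · rw [if_neg h]
    simp [List.getD, h]

theorem primrec_evc : Primrec evc := by
  have h : Primrec₂ fun (_ : Unit) n => evc n := by
    refine Primrec.nat_strong_rec (fun _ n => evc n) (g := fun _ L => evcStep L)
      (primrec_evcStep.comp Primrec.snd) ?_
    intro _ c
    unfold evcStep
    rw [getD_map_range, getD_map_range, List.length_map, List.length_range]
    conv_rhs => rw [evc]
    simp only [dite_eq_ite]
  exact h.comp (Primrec.const ()) Primrec.id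


/-! ### The value function on codes is correct -/

theorem encode_two (a b : ℕ) :
    Encodable.encode [a, b] = Nat.succ (Nat.pair a (Nat.succ (Nat.pair b 0))) := rfl

theorem code_zeroT : code Fin.val (zeroT : magmaSig.lang.Term (Fin 1)) = 1 := by
  rfl

theorem code_mulT (s t : magmaSig.lang.Term (Fin 1)) :
    code Fin.val (mulT s t) = 2 * Nat.pair 1 (Nat.pair (code Fin.val s)
      (Nat.pair (code Fin.val t) 0 + 1) + 1) + 1 := by
  rfl

theorem evc_mul (a b m n : ℕ) (ha : evc a = some m) (hb : evc b = some n) :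
    evc (2 * Nat.pair 1 (Nat.pair a (Nat.pair b 0 + 1) + 1) + 1) = some (mulN m n) := by
  have h1 : (2 * Nat.pair 1 (Nat.pair a (Nat.pair b 0 + 1) + 1) + 1) / 2 =
      Nat.pair 1 (Nat.pair a (Nat.pair b 0 + 1) + 1) := by omega
  have h2 : a ≤ Nat.pair a (Nat.pair b 0 + 1) := Nat.left_le_pair _ _
  have h3 : Nat.pair b 0 + 1 ≤ Nat.pair a (Nat.pair b 0 + 1) := Nat.right_le_pair _ _
  have h4 : b ≤ Nat.pair b 0 := Nat.left_le_pair _ _
  have h5 : Nat.pair a (Nat.pair b 0 + 1) + 1 ≤ Nat.pair 1 (Nat.pair a (Nat.pair b 0 + 1) + 1) :=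
    Nat.right_le_pair _ _
  rw [evc, if_neg (by omega), h1]
  simp only [Nat.unpair_pair]
  rw [if_neg (by omega), if_pos (by simp)]
  simp only [Nat.add_sub_cancel, Nat.unpair_pair]
  rw [dif_pos (by omega), dif_pos (by omega), ha, hb]
  rfl

theorem evc_code (s : magmaSig.lang.Term (Fin 1)) : evc (code Fin.val s) = some (ev s) := by
  revert s
  apply term_ind
  · intro i
    rw [Subsingleton.elim i 0]
    have : code Fin.val (FirstOrder.Language.Term.var 0 : magmaSig.lang.Term (Fin 1)) = 0 := rfl
    rw [this, evc]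
    rfl
  · rw [code_zeroT, evc]
    simp [ev_zeroT]
  · intro s t hs ht
    rw [code_mulT, ev_mulT]
    exact evc_mul _ _ _ _ hs ht

theorem evc_some (c : ℕ) : ∀ m, evc c = some m →
    ∃ s : magmaSig.lang.Term (Fin 1), code Fin.val s = c ∧ ev s = m := by
  induction c using Nat.strong_induction_on with
  | _ c ih =>
    intro m hm
    rw [evc] at hm
    by_cases h1 : c % 2 = 0
    · rw [if_pos h1] at hm
      by_cases h2 : c = 0
      · rw [if_pos h2, Option.some.injEq] at hm
        refine ⟨.var 0, ?_, ?_⟩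
        · rw [h2]
          rfl
        · rw [ev_var]
          exact hm
      · rw [if_neg h2] at hm
        exact absurd hm (by simp)
    · rw [if_neg h1] at hm
      by_cases h3 : (c / 2).unpair.1 = 0
      · rw [if_pos h3] at hm
        by_cases h4 : (c / 2).unpair.2 = 0
        · rw [if_pos h4, Option.some.injEq] at hm
          refine ⟨zeroT, ?_, ?_⟩
          · rw [code_zeroT]
            have h6 : Nat.pair (c / 2).unpair.1 (c / 2).unpair.2 = c / 2 := Nat.pair_unpair _
            rw [h3, h4] at h6
            have h7 : Nat.pair 0 0 = 0 := rfl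
            omega
          · rw [ev_zeroT]
            exact hm
        · rw [if_neg h4] at hm
          exact absurd hm (by simp)
      · rw [if_neg h3] at hm
        by_cases h5 : (c / 2).unpair.1 = 1 ∧ (c / 2).unpair.2 ≠ 0 ∧
            ((c / 2).unpair.2 - 1).unpair.2 ≠ 0 ∧
            (((c / 2).unpair.2 - 1).unpair.2 - 1).unpair.2 = 0
        · rw [if_pos h5] at hm
          obtain ⟨hf, hl, hl2, hr⟩ := h5
          rw [Option.bind_eq_some_iff] at hm
          obtain ⟨a, ha, hm⟩ := hm
          rw [Option.map_eq_some_iff] at hm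
          obtain ⟨b, hb, hm⟩ := hm
          by_cases h6 : ((c / 2).unpair.2 - 1).unpair.1 < c
          · rw [dif_pos h6] at ha
            by_cases h7 : (((c / 2).unpair.2 - 1).unpair.2 - 1).unpair.1 < c
            · rw [dif_pos h7] at hb
              obtain ⟨s, hs, hs'⟩ := ih _ h6 _ ha
              obtain ⟨t, ht, ht'⟩ := ih _ h7 _ hb
              refine ⟨mulT s t, ?_, ?_⟩
              · rw [code_mulT, hs, ht]
                have e1 : Nat.pair (((c / 2).unpair.2 - 1).unpair.2 - 1).unpair.1 0 =
                    ((c / 2).unpair.2 - 1).unpair.2 - 1 := by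
                  have := Nat.pair_unpair (((c / 2).unpair.2 - 1).unpair.2 - 1)
                  rw [hr] at this
                  exact this
                rw [e1, Nat.sub_add_cancel (by omega), Nat.pair_unpair,
                  Nat.sub_add_cancel (by omega)]
                have e2 : Nat.pair 1 (c / 2).unpair.2 = c / 2 := by
                  have := Nat.pair_unpair (c / 2)
                  rw [hf] at this
                  exact this
                rw [e2]
                omega
              · rw [ev_mulT, hs', ht', hm]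
            · rw [dif_neg h7] at hb
              exact absurd hb (by simp)
          · rw [dif_neg h6] at ha
            exact absurd ha (by simp)
        · rw [if_neg h5] at hm
          exact absurd hm (by simp)

theorem code_injective : Function.Injective (code Fin.val : magmaSig.lang.Term (Fin 1) → ℕ) := by
  have key : ∀ s t : magmaSig.lang.Term (Fin 1), code Fin.val s = code Fin.val t → s = t := by
    apply term_ind
    · intro i
      apply term_ind
      · intro j _
        rw [Subsingleton.elim i j]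
      · intro h
        have : code Fin.val (FirstOrder.Language.Term.var i : magmaSig.lang.Term (Fin 1)) =
          2 * i.val := rfl
        rw [this, code_zeroT] at h
        omega
      · intro s t _ _ h
        have : code Fin.val (FirstOrder.Language.Term.var i : magmaSig.lang.Term (Fin 1)) =
          2 * i.val := rfl
        rw [this, code_mulT] at h
        omega
    · apply term_ind
      · intro i h
        have : code Fin.val (FirstOrder.Language.Term.var i : magmaSig.lang.Term (Fin 1)) =
          2 * i.val := rfl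
        rw [this, code_zeroT] at h
        omega
      · intro _
        rfl
      · intro s t _ _ h
        rw [code_zeroT, code_mulT] at h
        have h5 : Nat.pair (code Fin.val s) (Nat.pair (code Fin.val t) 0 + 1) + 1 ≤
          Nat.pair 1 (Nat.pair (code Fin.val s) (Nat.pair (code Fin.val t) 0 + 1) + 1) :=
          Nat.right_le_pair _ _
        omega
    · intro s t ihs iht
      apply term_ind
      · intro i h
        have : code Fin.val (FirstOrder.Language.Term.var i : magmaSig.lang.Term (Fin 1)) =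
          2 * i.val := rfl
        rw [this, code_mulT] at h
        omega
      · intro h
        rw [code_zeroT, code_mulT] at h
        have h5 : Nat.pair (code Fin.val s) (Nat.pair (code Fin.val t) 0 + 1) + 1 ≤
          Nat.pair 1 (Nat.pair (code Fin.val s) (Nat.pair (code Fin.val t) 0 + 1) + 1) :=
          Nat.right_le_pair _ _
        omega
      · intro s' t' _ _ h
        rw [code_mulT, code_mulT] at h
        have h1 := Nat.eq_of_mul_eq_mul_left (by norm_num) (Nat.add_right_cancel h)
        rw [Nat.pair_eq_pair] at h1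
        have h2 := Nat.add_right_cancel h1.2
        rw [Nat.pair_eq_pair] at h2
        have h3 := Nat.add_right_cancel h2.2
        rw [Nat.pair_eq_pair] at h3
        rw [ihs s' h2.1, iht t' h3.1]
  exact fun s t h => key s t h

/-! ### `θ_e` is uniformly c.e. -/

/-- Pairs of values coming from the first `s` steps of the enumeration of `W_e`. -/
def gens (e s : ℕ) : List (ℕ × ℕ) :=
  (List.range s).filterMap fun c =>
    if Wb e s c = true then
      (evc c.unpair.1).bind fun m => (evc c.unpair.2).map fun n => (m, n)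
    else none

/-- One closure step. -/
def stepL (G : List (ℕ × ℕ)) (s : ℕ) (L : List (ℕ × ℕ)) : List (ℕ × ℕ) :=
  L ++ (G ++ ((List.range s).map (fun m => (m, m)) ++ (L.map (fun q => (q.2, q.1)) ++
    (L.flatMap (fun q => L.filterMap fun q' => if q.2 = q'.1 then some (q.1, q'.2) else none) ++
      L.flatMap fun q => L.map fun q' => (mulN q.1 q'.1, mulN q.2 q'.2)))))

/-- The stages of the enumeration of the congruence generated by `W_e` on the model. -/
def stage (e : ℕ) : ℕ → List (ℕ × ℕ)
  | 0 => []
  | s + 1 => stepL (gens e s) s (stage e s)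

theorem stage_mono_succ (e s : ℕ) {p : ℕ × ℕ} (h : p ∈ stage e s) : p ∈ stage e (s + 1) := by
  rw [stage, stepL]
  exact List.mem_append_left _ h

theorem stage_mono (e : ℕ) {s t : ℕ} (hst : s ≤ t) {p : ℕ × ℕ} (h : p ∈ stage e s) :
    p ∈ stage e t := by
  induction hst with
  | refl => exact h
  | step _ ih => exact stage_mono_succ e _ ih

theorem mem_gens (e s m n : ℕ) : (m, n) ∈ gens e s ↔ ∃ c < s, Wb e s c = true ∧
    evc c.unpair.1 = some m ∧ evc c.unpair.2 = some n := by
  unfold gens
  rw [List.mem_filterMap]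
  constructor
  · rintro ⟨c, hc, h⟩
    rw [List.mem_range] at hc
    split_ifs at h with h1
    rw [Option.bind_eq_some_iff] at h
    obtain ⟨a, ha, h⟩ := h
    rw [Option.map_eq_some_iff] at h
    obtain ⟨b, hb, h⟩ := h
    rw [Prod.mk.injEq] at h
    exact ⟨c, hc, h1, h.1 ▸ ha, h.2 ▸ hb⟩
  · rintro ⟨c, hc, h1, ha, hb⟩
    refine ⟨c, List.mem_range.2 hc, ?_⟩
    rw [if_pos h1, ha, hb]
    rfl

theorem Cl_of_gens {e s m n : ℕ} (h : (m, n) ∈ gens e s) : Cl e m n := by
  obtain ⟨c, _, h1, ha, hb⟩ := (mem_gens e s m n).1 h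
  obtain ⟨a, ha1, ha2⟩ := evc_some _ _ ha
  obtain ⟨b, hb1, hb2⟩ := evc_some _ _ hb
  rw [← ha2, ← hb2]
  refine Cl.base a b ?_
  rw [ha1, hb1, Nat.pair_unpair]
  exact (mem_W_iff e c).2 ⟨s, h1⟩

theorem Cl_of_stage (e s : ℕ) : ∀ p ∈ stage e s, Cl e p.1 p.2 := by
  induction s with
  | zero =>
    intro p hp
    simp [stage] at hp
  | succ s ih =>
    rintro ⟨m, n⟩ hp
    rw [stage, stepL] at hp
    simp only [List.mem_append] at hp
    rcases hp with hp | hp | hp | hp | hp | hp
    · exact ih _ hp
    · exact Cl_of_gens hp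
    · rw [List.mem_map] at hp
      obtain ⟨a, _, ha⟩ := hp
      rw [← ha]
      exact Cl.refl a
    · rw [List.mem_map] at hp
      obtain ⟨a, ha, ha'⟩ := hp
      rw [← ha']
      exact Cl.symm (ih _ ha)
    · rw [List.mem_flatMap] at hp
      obtain ⟨a, ha, hp⟩ := hp
      rw [List.mem_filterMap] at hp
      obtain ⟨b, hb, hp⟩ := hp
      split_ifs at hp with h1
      rw [Option.some.injEq] at hp
      rw [← hp]
      have h2 := ih _ ha
      rw [h1] at h2
      exact Cl.trans h2 (ih _ hb)
    · rw [List.mem_flatMap] at hp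
      obtain ⟨a, ha, hp⟩ := hp
      rw [List.mem_map] at hp
      obtain ⟨b, hb, hp⟩ := hp
      rw [← hp]
      exact Cl.mul (ih _ ha) (ih _ hb)

theorem stage_of_Cl {e m n : ℕ} (h : Cl e m n) : ∃ s, (m, n) ∈ stage e s := by
  induction h with
  | base a b hab =>
    obtain ⟨k, hk⟩ := (mem_W_iff _ _).1 hab
    let c := Nat.pair (code Fin.val a) (code Fin.val b)
    refine ⟨max k (c + 1) + 1, ?_⟩
    rw [stage, stepL]
    refine List.mem_append_right _ (List.mem_append_left _ ?_)
    rw [mem_gens]
    refine ⟨c, by omega, Wb_mono (le_max_left _ _) hk, ?_, ?_⟩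
    · simp only [c, Nat.unpair_pair]
      exact evc_code a
    · simp only [c, Nat.unpair_pair]
      exact evc_code b
  | refl m =>
    refine ⟨(m + 1) + 1, ?_⟩
    rw [stage, stepL]
    refine List.mem_append_right _ (List.mem_append_right _ (List.mem_append_left _ ?_))
    rw [List.mem_map]
    exact ⟨m, List.mem_range.2 (Nat.lt_succ_self m), rfl⟩
  | @symm m n _ ih =>
    obtain ⟨s, hs⟩ := ih
    refine ⟨s + 1, ?_⟩
    rw [stage, stepL]
    refine List.mem_append_right _ (List.mem_append_right _ (List.mem_append_right _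
      (List.mem_append_left _ ?_)))
    rw [List.mem_map]
    exact ⟨_, hs, rfl⟩
  | @trans m n k _ _ ih1 ih2 =>
    obtain ⟨s, hs⟩ := ih1
    obtain ⟨t, ht⟩ := ih2
    have hs' := stage_mono e (le_max_left s t) hs
    have ht' := stage_mono e (le_max_right s t) ht
    refine ⟨max s t + 1, ?_⟩
    rw [stage, stepL]
    refine List.mem_append_right _ (List.mem_append_right _ (List.mem_append_right _
      (List.mem_append_right _ (List.mem_append_left _ ?_))))
    rw [List.mem_flatMap]
    refine ⟨_, hs', ?_⟩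
    rw [List.mem_filterMap]
    exact ⟨_, ht', by simp⟩
  | @mul m n m' n' _ _ ih1 ih2 =>
    obtain ⟨s, hs⟩ := ih1
    obtain ⟨t, ht⟩ := ih2
    have hs' := stage_mono e (le_max_left s t) hs
    have ht' := stage_mono e (le_max_right s t) ht
    refine ⟨max s t + 1, ?_⟩
    rw [stage, stepL]
    refine List.mem_append_right _ (List.mem_append_right _ (List.mem_append_right _
      (List.mem_append_right _ (List.mem_append_right _ ?_))))
    rw [List.mem_flatMap]
    refine ⟨_, hs', ?_⟩
    rw [List.mem_map]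
    exact ⟨_, ht', rfl⟩

theorem primrec_gens : Primrec fun p : ℕ × ℕ => gens p.1 p.2 := by
  unfold gens
  refine Primrec.listFilterMap (Primrec.list_range.comp Primrec.snd) ?_
  have he : Primrec fun x : (ℕ × ℕ) × ℕ => x.1.1 := Primrec.fst.comp Primrec.fst
  have hs : Primrec fun x : (ℕ × ℕ) × ℕ => x.1.2 := Primrec.snd.comp Primrec.fst
  have hc : Primrec fun x : (ℕ × ℕ) × ℕ => x.2 := Primrec.snd
  refine Primrec.ite ?_ ?_ (Primrec.const none)
  · exact Primrec.eq.comp (primrec_Wb.comp (he.pair (hs.pair hc))) (Primrec.const true)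
  · refine Primrec.option_bind
      (primrec_evc.comp (Primrec.fst.comp (Primrec.unpair.comp hc))) ?_
    refine Primrec.option_map
      (primrec_evc.comp (Primrec.snd.comp (Primrec.unpair.comp (hc.comp Primrec.fst)))) ?_
    exact (Primrec.snd.comp Primrec.fst).pair Primrec.snd

theorem primrec_stepL :
    Primrec fun x : List (ℕ × ℕ) × ℕ × List (ℕ × ℕ) => stepL x.1 x.2.1 x.2.2 := by
  unfold stepL
  have hG : Primrec fun x : List (ℕ × ℕ) × ℕ × List (ℕ × ℕ) => x.1 := Primrec.fst
  have hs : Primrec fun x : List (ℕ × ℕ) × ℕ × List (ℕ × ℕ) => x.2.1 :=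
    Primrec.fst.comp Primrec.snd
  have hL : Primrec fun x : List (ℕ × ℕ) × ℕ × List (ℕ × ℕ) => x.2.2 :=
    Primrec.snd.comp Primrec.snd
  refine Primrec.list_append.comp hL (Primrec.list_append.comp hG (Primrec.list_append.comp ?_
    (Primrec.list_append.comp ?_ (Primrec.list_append.comp ?_ ?_))))
  · exact Primrec.list_map (Primrec.list_range.comp hs) (Primrec.snd.pair Primrec.snd)
  · exact Primrec.list_map hL
      ((Primrec.snd.comp Primrec.snd).pair (Primrec.fst.comp Primrec.snd))
  · refine Primrec.list_flatMap hL ?_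
    refine Primrec.listFilterMap (hL.comp Primrec.fst) ?_
    refine Primrec.ite ?_ ?_ (Primrec.const none)
    · exact Primrec.eq.comp (Primrec.snd.comp (Primrec.snd.comp Primrec.fst))
        (Primrec.fst.comp Primrec.snd)
    · exact Primrec.option_some.comp ((Primrec.fst.comp (Primrec.snd.comp Primrec.fst)).pair
        (Primrec.snd.comp Primrec.snd))
  · refine Primrec.list_flatMap hL ?_
    refine Primrec.list_map (hL.comp Primrec.fst) ?_
    exact (primrec_mulN.comp (Primrec.fst.comp (Primrec.snd.comp Primrec.fst))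
      (Primrec.fst.comp Primrec.snd)).pair
      (primrec_mulN.comp (Primrec.snd.comp (Primrec.snd.comp Primrec.fst))
        (Primrec.snd.comp Primrec.snd))

theorem primrec_stage : Primrec₂ stage := by
  have h : Primrec₂ fun (e n : ℕ) =>
      (Nat.rec (motive := fun _ => List (ℕ × ℕ)) [] (fun s L => stepL (gens e s) s L) n :
        List (ℕ × ℕ)) := by
    refine Primrec.nat_rec (f := fun _ : ℕ => ([] : List (ℕ × ℕ)))
      (g := fun (e : ℕ) (x : ℕ × List (ℕ × ℕ)) => stepL (gens e x.1) x.1 x.2)
      (Primrec.const _) ?_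
    refine primrec_stepL.comp (Primrec.pair ?_ (Primrec.pair ?_ ?_))
    · exact primrec_gens.comp (Primrec.fst.pair (Primrec.fst.comp Primrec.snd))
    · exact Primrec.fst.comp Primrec.snd
    · exact Primrec.snd.comp Primrec.snd
  refine h.of_eq fun e n => ?_
  induction n with
  | zero => rfl
  | succ n ih =>
    rw [stage, ← ih]

/-- The set of codes of the pairs in `θ_e`. -/
def ThetaCode (e c : ℕ) : Prop :=
  ∃ s t : magmaSig.lang.Term (Fin 1), c = Nat.pair (code Fin.val s) (code Fin.val t) ∧
    magmaVariety.theta 1 e s t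

theorem thetaCode_iff (e c : ℕ) : ThetaCode e c ↔ ∃ k, ∃ q ∈ stage e k,
    evc c.unpair.1 = some q.1 ∧ evc c.unpair.2 = some q.2 := by
  constructor
  · rintro ⟨s, t, rfl, h⟩
    rw [theta_iff] at h
    obtain ⟨k, hk⟩ := stage_of_Cl h
    refine ⟨k, _, hk, ?_, ?_⟩
    · simp only [Nat.unpair_pair]
      exact evc_code s
    · simp only [Nat.unpair_pair]
      exact evc_code t
  · rintro ⟨k, q, hq, h1, h2⟩
    obtain ⟨s, hs, hs'⟩ := evc_some _ _ h1
    obtain ⟨t, ht, ht'⟩ := evc_some _ _ h2
    refine ⟨s, t, ?_, ?_⟩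
    · rw [hs, ht, Nat.pair_unpair]
    · rw [theta_iff, hs', ht']
      exact Cl_of_stage e k q hq

theorem thetaCode_re : REPred fun x : ℕ × ℕ => ThetaCode x.1 x.2 := by
  have h : ComputablePred fun x : (ℕ × ℕ) × ℕ => ∃ q ∈ stage x.1.1 x.2,
      evc x.1.2.unpair.1 = some q.1 ∧ evc x.1.2.unpair.2 = some q.2 := by
    have hR : PrimrecRel fun (q : ℕ × ℕ) (c : ℕ) =>
        evc c.unpair.1 = some q.1 ∧ evc c.unpair.2 = some q.2 := by
      refine PrimrecPred.and ?_ ?_
      · exact Primrec.eq.comp
          (primrec_evc.comp (Primrec.fst.comp (Primrec.unpair.comp Primrec.snd)))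
          (Primrec.option_some.comp (Primrec.fst.comp Primrec.fst))
      · exact Primrec.eq.comp
          (primrec_evc.comp (Primrec.snd.comp (Primrec.unpair.comp Primrec.snd)))
          (Primrec.option_some.comp (Primrec.snd.comp Primrec.fst))
    have h2 := PrimrecRel.exists_mem_list hR
    exact (PrimrecRel.comp h2 (primrec_stage.comp (Primrec.fst.comp Primrec.fst) Primrec.snd)
      (Primrec.snd.comp Primrec.fst)).computablePred
  refine (rePred_exists (p := fun (x : ℕ × ℕ) k => ∃ q ∈ stage x.1 k,
      evc x.2.unpair.1 = some q.1 ∧ evc x.2.unpair.2 = some q.2) h).of_eq fun x => ?_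
  exact (thetaCode_iff x.1 x.2).symm

theorem isoRel_reducible : CReducible (magmaVariety.IsoRel 1) EqCE := by
  obtain ⟨f, hf, hW⟩ := exists_index_uniform thetaCode_re
  refine ⟨f, hf, fun e i => ?_⟩
  rw [isoRel_iff]
  unfold EqCE
  rw [hW, hW]
  constructor
  · intro h
    unfold ThetaCode
    rw [h]
  · intro h
    refine Setoid.ext fun s t => ?_
    have key : ∀ j, magmaVariety.theta 1 j s t ↔
        ThetaCode j (Nat.pair (code Fin.val s) (code Fin.val t)) := by
      intro j
      constructor
      · intro h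
        exact ⟨s, t, rfl, h⟩
      · rintro ⟨s', t', h1, h2⟩
        rw [Nat.pair_eq_pair] at h1
        rw [code_injective h1.1, code_injective h1.2]
        exact h2
    rw [key e, key i]
    have := Set.ext_iff.1 h (Nat.pair (code Fin.val s) (code Fin.val t))
    exact this

/-! ### No relation reducible to equality of c.e. sets is `Σ⁰₃`-complete -/

/-- The diagonal set, a `Σ⁰₂` set which is not `Π⁰₂`. -/
def S (x : ℕ) : Prop := ∃ a, Nat.pair x a ∉ W x

theorem S_not_pi (e : ℕ) : ¬ ∀ x, S x ↔ ∀ a, Nat.pair x a ∈ W e := by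
  intro h
  have h1 := h e
  unfold S at h1
  by_cases h2 : ∀ a, Nat.pair e a ∈ W e
  · obtain ⟨a, ha⟩ := h1.2 h2
    exact ha (h2 a)
  · refine h2 (h1.1 ?_)
    by_contra h3
    refine h2 fun a => ?_
    by_contra h4
    exact h3 ⟨a, h4⟩

/-- The equivalence relation with one nontrivial class, the diagonal set. -/
def ES (x y : ℕ) : Prop := x = y ∨ (S x ∧ S y)

theorem ES_equivalence : Equivalence ES where
  refl _ := Or.inl rfl
  symm h := h.elim (fun h => Or.inl h.symm) fun h => Or.inr ⟨h.2, h.1⟩
  trans := by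
    rintro x y z (rfl | ⟨h1, h2⟩) (rfl | ⟨h3, h4⟩)
    · exact Or.inl rfl
    · exact Or.inr ⟨h3, h4⟩
    · exact Or.inr ⟨h1, h2⟩
    · exact Or.inr ⟨h1, h4⟩

theorem ES_sigma3 : IsSigma3 ES := by
  refine ⟨fun p => p.1 = p.2.1 ∨ (¬ Wb p.1 p.2.2.2.1 (Nat.pair p.1 p.2.2.1.unpair.1) = true ∧
    ¬ Wb p.2.1 p.2.2.2.1 (Nat.pair p.2.1 p.2.2.1.unpair.2) = true), ?_, ?_⟩
  · have hx : Primrec fun p : ℕ × ℕ × ℕ × ℕ × ℕ => p.1 := Primrec.fst
    have hy : Primrec fun p : ℕ × ℕ × ℕ × ℕ × ℕ => p.2.1 := Primrec.fst.comp Primrec.snd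
    have ha : Primrec fun p : ℕ × ℕ × ℕ × ℕ × ℕ => p.2.2.1 :=
      Primrec.fst.comp (Primrec.snd.comp Primrec.snd)
    have hb : Primrec fun p : ℕ × ℕ × ℕ × ℕ × ℕ => p.2.2.2.1 :=
      Primrec.fst.comp (Primrec.snd.comp (Primrec.snd.comp Primrec.snd))
    refine PrimrecPred.computablePred (PrimrecPred.or (Primrec.eq.comp hx hy)
      (PrimrecPred.and (PrimrecPred.not ?_) (PrimrecPred.not ?_)))
    · exact Primrec.eq.comp (primrec_Wb.comp (hx.pair (hb.pair
        (Primrec₂.natPair.comp hx (Primrec.fst.comp (Primrec.unpair.comp ha))))))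
        (Primrec.const true)
    · exact Primrec.eq.comp (primrec_Wb.comp (hy.pair (hb.pair
        (Primrec₂.natPair.comp hy (Primrec.snd.comp (Primrec.unpair.comp ha))))))
        (Primrec.const true)
  · intro x y
    constructor
    · rintro (rfl | ⟨⟨a, ha⟩, ⟨b, hb⟩⟩)
      · exact ⟨0, fun b => ⟨0, Or.inl rfl⟩⟩
      · refine ⟨Nat.pair a b, fun k => ⟨0, Or.inr ⟨?_, ?_⟩⟩⟩
        · simp only [Nat.unpair_pair]
          exact fun h => ha ((mem_W_iff _ _).2 ⟨k, h⟩)
        · simp only [Nat.unpair_pair]
          exact fun h => hb ((mem_W_iff _ _).2 ⟨k, h⟩)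
    · rintro ⟨a, h⟩
      by_cases hxy : x = y
      · exact Or.inl hxy
      · right
        constructor
        · refine ⟨a.unpair.1, fun hW => ?_⟩
          obtain ⟨k, hk⟩ := (mem_W_iff _ _).1 hW
          obtain ⟨_, h1 | h1⟩ := h k
          · exact hxy h1
          · exact h1.1 hk
        · refine ⟨a.unpair.2, fun hW => ?_⟩
          obtain ⟨k, hk⟩ := (mem_W_iff _ _).1 hW
          obtain ⟨_, h1 | h1⟩ := h k
          · exact hxy h1
          · exact h1.2 hk

theorem not_complete_of_reducible {E : ℕ → ℕ → Prop} (hE : CReducible E EqCE) :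
    ¬ IsSigma3Complete E := by
  rintro ⟨_, h⟩
  obtain ⟨g, hg, hg'⟩ := h ES ES_equivalence ES_sigma3
  obtain ⟨f, hf, hf'⟩ := hE
  obtain ⟨s0, hs0⟩ := exists_W_empty
  have hS0 : S s0 := ⟨0, by rw [hs0]; exact Set.notMem_empty _⟩
  have h1 : ∀ x, S x ↔ W (f (g x)) = W (f (g s0)) := by
    intro x
    have h2 : S x ↔ ES x s0 := by
      constructor
      · intro hx
        exact Or.inr ⟨hx, hS0⟩
      · rintro (rfl | ⟨hx, _⟩)
        · exact hS0
        · exact hx
    rw [h2, hg', hf']
    rfl
  let P : ℕ → Prop := fun z =>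
    (¬ Wb (f (g z.unpair.1)) z.unpair.2.unpair.2 z.unpair.2.unpair.1 = true ∨
      z.unpair.2.unpair.1 ∈ W (f (g s0))) ∧
    (¬ Wb (f (g s0)) z.unpair.2.unpair.2 z.unpair.2.unpair.1 = true ∨
      z.unpair.2.unpair.1 ∈ W (f (g z.unpair.1)))
  have hP : REPred P := by
    have hc : ComputablePred fun x : ℕ × ℕ =>
        (¬ Wb (f (g x.1.unpair.1)) x.1.unpair.2.unpair.2 x.1.unpair.2.unpair.1 = true ∨
          Wb (f (g s0)) x.2 x.1.unpair.2.unpair.1 = true) ∧
        (¬ Wb (f (g s0)) x.1.unpair.2.unpair.2 x.1.unpair.2.unpair.1 = true ∨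
          Wb (f (g x.1.unpair.1)) x.2 x.1.unpair.2.unpair.1 = true) := by
      have hx : Computable fun x : ℕ × ℕ => x.1.unpair.1 :=
        (Primrec.fst.comp (Primrec.unpair.comp Primrec.fst)).to_comp
      have hc : Computable fun x : ℕ × ℕ => x.1.unpair.2.unpair.1 :=
        (Primrec.fst.comp (Primrec.unpair.comp (Primrec.snd.comp
          (Primrec.unpair.comp Primrec.fst)))).to_comp
      have hs : Computable fun x : ℕ × ℕ => x.1.unpair.2.unpair.2 :=
        (Primrec.snd.comp (Primrec.unpair.comp (Primrec.snd.comp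
          (Primrec.unpair.comp Primrec.fst)))).to_comp
      have ht : Computable fun x : ℕ × ℕ => x.2 := Computable.snd
      have hfx : Computable fun x : ℕ × ℕ => f (g x.1.unpair.1) := hf.comp (hg.comp hx)
      have hf0 : Computable fun _ : ℕ × ℕ => f (g s0) := Computable.const _
      have hW : ∀ {u v w : ℕ × ℕ → ℕ}, Computable u → Computable v → Computable w →
          Computable fun x => Wb (u x) (v x) (w x) := fun hu hv hw =>
        primrec_Wb.to_comp.comp (hu.pair (hv.pair hw))
      refine Computable.computablePred (p := fun x : ℕ × ℕ =>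
        (¬ Wb (f (g x.1.unpair.1)) x.1.unpair.2.unpair.2 x.1.unpair.2.unpair.1 = true ∨
          Wb (f (g s0)) x.2 x.1.unpair.2.unpair.1 = true) ∧
        (¬ Wb (f (g s0)) x.1.unpair.2.unpair.2 x.1.unpair.2.unpair.1 = true ∨
          Wb (f (g x.1.unpair.1)) x.2 x.1.unpair.2.unpair.1 = true)) ?_
      have h3 : Computable fun x : ℕ × ℕ =>
          ((!Wb (f (g x.1.unpair.1)) x.1.unpair.2.unpair.2 x.1.unpair.2.unpair.1) ||
            Wb (f (g s0)) x.2 x.1.unpair.2.unpair.1) &&
          ((!Wb (f (g s0)) x.1.unpair.2.unpair.2 x.1.unpair.2.unpair.1) ||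
            Wb (f (g x.1.unpair.1)) x.2 x.1.unpair.2.unpair.1) :=
        Primrec.and.to_comp.comp
          (Primrec.or.to_comp.comp (Primrec.not.to_comp.comp (hW hfx hs hc)) (hW hf0 ht hc))
          (Primrec.or.to_comp.comp (Primrec.not.to_comp.comp (hW hf0 hs hc)) (hW hfx ht hc))
      refine h3.of_eq fun x => ?_
      simp
    refine (rePred_exists (p := fun (z t : ℕ) =>
        (¬ Wb (f (g z.unpair.1)) z.unpair.2.unpair.2 z.unpair.2.unpair.1 = true ∨
          Wb (f (g s0)) t z.unpair.2.unpair.1 = true) ∧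
        (¬ Wb (f (g s0)) z.unpair.2.unpair.2 z.unpair.2.unpair.1 = true ∨
          Wb (f (g z.unpair.1)) t z.unpair.2.unpair.1 = true)) hc).of_eq fun z => ?_
    constructor
    · rintro ⟨t, ht1, ht2⟩
      exact ⟨ht1.imp_right fun h => (mem_W_iff _ _).2 ⟨t, h⟩,
        ht2.imp_right fun h => (mem_W_iff _ _).2 ⟨t, h⟩⟩
    · rintro ⟨h1, h2⟩
      have h3 : ∃ t1, ¬ Wb (f (g z.unpair.1)) z.unpair.2.unpair.2 z.unpair.2.unpair.1 = true ∨
          Wb (f (g s0)) t1 z.unpair.2.unpair.1 = true := by
        rcases h1 with h1 | h1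
        · exact ⟨0, Or.inl h1⟩
        · obtain ⟨t, ht⟩ := (mem_W_iff _ _).1 h1
          exact ⟨t, Or.inr ht⟩
      have h4 : ∃ t1, ¬ Wb (f (g s0)) z.unpair.2.unpair.2 z.unpair.2.unpair.1 = true ∨
          Wb (f (g z.unpair.1)) t1 z.unpair.2.unpair.1 = true := by
        rcases h2 with h2 | h2
        · exact ⟨0, Or.inl h2⟩
        · obtain ⟨t, ht⟩ := (mem_W_iff _ _).1 h2
          exact ⟨t, Or.inr ht⟩
      obtain ⟨t1, ht1⟩ := h3
      obtain ⟨t2, ht2⟩ := h4
      exact ⟨max t1 t2, ht1.imp_right (Wb_mono (le_max_left _ _)),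
        ht2.imp_right (Wb_mono (le_max_right _ _))⟩
  obtain ⟨e, he⟩ := exists_index hP
  refine S_not_pi e fun x => ?_
  rw [h1, he]
  have h5 : ∀ a, Nat.pair x a ∈ {z | P z} ↔
      (¬ Wb (f (g x)) a.unpair.2 a.unpair.1 = true ∨ a.unpair.1 ∈ W (f (g s0))) ∧
      (¬ Wb (f (g s0)) a.unpair.2 a.unpair.1 = true ∨ a.unpair.1 ∈ W (f (g x))) := by
    intro a
    simp only [Set.mem_ofPred_eq, P, Nat.unpair_pair]
  constructor
  · intro h a
    rw [h5, h]
    constructor <;>
    · by_cases h6 : Wb (f (g s0)) a.unpair.2 a.unpair.1 = true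
      · right
        exact (mem_W_iff _ _).2 ⟨_, h6⟩
      · first
        | exact Or.inl h6
        | by_cases h7 : Wb (f (g x)) a.unpair.2 a.unpair.1 = true
          · right
            rw [← h]
            exact (mem_W_iff _ _).2 ⟨_, h7⟩
          · exact Or.inl h7
  · intro h
    ext c
    constructor
    · intro hc
      obtain ⟨s, hs⟩ := (mem_W_iff _ _).1 hc
      have h6 := ((h5 (Nat.pair c s)).1 (h _)).1
      simp only [Nat.unpair_pair] at h6
      rcases h6 with h6 | h6
      · exact absurd hs h6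
      · exact h6
    · intro hc
      obtain ⟨s, hs⟩ := (mem_W_iff _ _).1 hc
      have h6 := ((h5 (Nat.pair c s)).1 (h _)).2
      simp only [Nat.unpair_pair] at h6
      rcases h6 with h6 | h6
      · exact absurd hs h6
      · exact h6

/-- There is a finitely based variety `V` in a finite signature and an `n ≥ 1` such that the class
`V_n` of `n`-generated c.e. algebras of `V` fails ACC, but its isomorphism relation is not
`Σ⁰₃`-complete; in fact it is `≤_c` equality of c.e. sets. -/
theorem result : ∃ (V : Variety) (n : ℕ), 1 ≤ n ∧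
    {f : ℕ | (V.sig.arity f).isSome = true}.Finite ∧ V.laws.Finite ∧
    ¬ V.SatisfiesACC n ∧ CReducible (V.IsoRel n) EqCE ∧ ¬ IsSigma3Complete (V.IsoRel n) := by
  refine ⟨magmaVariety, 1, le_rfl, ?_, magmaLaws_finite, not_acc, isoRel_reducible,
    not_complete_of_reducible isoRel_reducible⟩
  refine (Set.toFinite ({0, 1} : Set ℕ)).subset ?_
  intro f hf
  by_contra h
  simp only [Set.mem_insert_iff, Set.mem_singleton_iff, not_or] at h
  simp [magmaSig, h.1, h.2] at hf

end Pool.Agent.Results.MP_aec1d5_lc.RigidMagma
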